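import Pool.Agent.Lib.MP_0a5adf_nt.TP.Interfaces

/-!
Project TAO+ : module BOTTOM.
-/

set_option autoImplicit false

namespace Pool.Agent.Lib.MP_0a5adf_nt.TP.H16

open Finset

/-- Invariance of `Bad`. -/
theorem inv_bad (d : Bool) (y H : ℝ) (lo : ℕ) (hy : y ≤ 2 ^ lo) : Inv d (Bad d y H) lo H := by
  intro n hn hnH
  have hny : y ≤ (n : ℝ) := by
    refine hy.trans ?_
    exact_mod_cast hn
  simp only [Bad, Set.mem_ofPred_eq, not_iff_not]
  constructor
  · rintro ⟨k, hk, hj⟩
    rcases k with _ | k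
    · simp only [Function.iterate_zero, id_eq] at hk
      linarith
    · refine ⟨k, ?_, ?_⟩
      · simpa [Function.iterate_succ_apply] using hk
      · intro j hjk
        have := hj (j + 1) (by omega)
        simpa [Function.iterate_succ_apply] using this
  · rintro ⟨k, hk, hj⟩
    refine ⟨k + 1, ?_, ?_⟩
    · simpa [Function.iterate_succ_apply] using hk
    · intro j hjk
      rcases j with _ | j
      · simpa using hnH
      · have := hj j (by omega)
        simpa [Function.iterate_succ_apply] using this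

/-- Failures which do not reach `lam * n` stay in `Bad`. -/
theorem fail_subset (d : Bool) (L : ℕ) (y lam : ℝ) (hlam : 0 ≤ lam) :
    Fail d L y lam ⊆ Reach d L lam ∪
      {N : ℕ | 2 ^ L ≤ N ∧ N < 2 ^ (L + 1) ∧ ∀ i ≤ L, (T d)^[i] N ∈ Bad d y (lam * 2 ^ L)} := by
  rintro N ⟨h1, h2, h3⟩
  by_cases hR : ∃ k ≤ L, lam * N ≤ ((T d)^[k] N : ℝ)
  · exact Or.inl ⟨h1, h2, hR⟩
  · right
    push Not at hR
    refine ⟨h1, h2, ?_⟩
    intro i hi hbad
    apply h3
    obtain ⟨k, hk, hj⟩ := hbad
    refine ⟨k + i, ?_, ?_⟩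
    · rw [Function.iterate_add_apply]
      exact hk
    · intro j hjk
      rcases lt_or_ge j i with hji | hji
      · exact hR j (by omega)
      · obtain ⟨j', rfl⟩ := Nat.exists_eq_add_of_le' hji
        rw [Function.iterate_add_apply]
        refine (hj j' (by omega)).trans_le ?_
        have : (2 : ℝ) ^ L ≤ N := by exact_mod_cast h1
        exact mul_le_mul_of_nonneg_left this hlam

/-- `Bad` is contained in `Fail` on a dyadic block. -/
theorem bad_subset_fail (d : Bool) (L : ℕ) (y H : ℝ) (hH : 0 ≤ H) (N : ℕ) (h1 : 2 ^ L ≤ N)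
    (h2 : N < 2 ^ (L + 1)) (h : N ∈ Bad d y H) : N ∈ Fail d L y (H / 2 ^ (L + 1)) := by
  refine ⟨h1, h2, ?_⟩
  rintro ⟨k, hk, hj⟩
  apply h
  refine ⟨k, hk, fun j hjk => (hj j hjk).trans_le ?_⟩
  have hN : (N : ℝ) ≤ 2 ^ (L + 1) := by exact_mod_cast h2.le
  rw [div_mul_eq_mul_div, div_le_iff₀ (by positivity)]
  exact mul_le_mul_of_nonneg_left hN hH

open Classical in
theorem block_sum (d : Bool) (L : ℕ) (y H δ C : ℝ) (hH : 2 ^ (L + 1) ≤ H)
    (hF : ∀ lam : ℝ, 1 ≤ lam →
      ((Fail d L y lam).ncard : ℝ) ≤ 2 * 2 ^ L / lam + C * L * 2 ^ L / y ^ δ) :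
    ∑ N ∈ (Ico (2 ^ L) (2 ^ (L + 1))).filter (fun N => N ∈ Bad d y H), (1 : ℝ) / N ≤
      2 * 2 ^ (L + 1) / H + C * L / y ^ δ := by
  have hHpos : 0 < H := lt_of_lt_of_le (by positivity) hH
  set F := (Ico (2 ^ L) (2 ^ (L + 1))).filter (fun N => N ∈ Bad d y H) with hFdef
  have hsub : (F : Set ℕ) ⊆ Fail d L y (H / 2 ^ (L + 1)) := by
    intro N hN
    rw [hFdef, mem_coe, mem_filter, mem_Ico] at hN
    exact bad_subset_fail d L y H hHpos.le N hN.1.1 hN.1.2 hN.2
  have hfin : (Fail d L y (H / 2 ^ (L + 1))).Finite :=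
    (Set.finite_Ico (2 ^ L) (2 ^ (L + 1))).subset fun N hN => ⟨hN.1, hN.2.1⟩
  have hcard : (F.card : ℝ) ≤ ((Fail d L y (H / 2 ^ (L + 1))).ncard : ℝ) := by
    have := Set.ncard_le_ncard hsub hfin
    rw [Set.ncard_coe_finset] at this
    exact_mod_cast this
  have h1 : ∑ N ∈ F, (1 : ℝ) / N ≤ ∑ N ∈ F, (1 : ℝ) / 2 ^ L := by
    apply sum_le_sum
    intro N hN
    rw [hFdef, mem_filter, mem_Ico] at hN
    have : (2 : ℝ) ^ L ≤ N := by exact_mod_cast hN.1.1
    exact one_div_le_one_div_of_le (by positivity) this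
  rw [sum_const, nsmul_eq_mul] at h1
  have h2 := hF (H / 2 ^ (L + 1)) (by rwa [le_div_iff₀ (by positivity), one_mul])
  have h3 : (F.card : ℝ) * (1 / 2 ^ L) ≤
      (2 * 2 ^ L / (H / 2 ^ (L + 1)) + C * L * 2 ^ L / y ^ δ) * (1 / 2 ^ L) :=
    mul_le_mul_of_nonneg_right (hcard.trans h2) (by positivity)
  refine h1.trans (h3.trans (le_of_eq ?_))
  have hp : (2 : ℝ) ^ L ≠ 0 := by positivity
  have hp' : (2 : ℝ) ^ (L + 1) ≠ 0 := by positivity
  have hH' : H ≠ 0 := hHpos.ne'
  rcases eq_or_ne (y ^ δ) 0 with h0 | h0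
  · rw [h0]; field_simp
  · field_simp

/-- BOTTOM. -/
theorem bottom (d : Bool) (hD : DescStatement d) : BottomStatement d := by
  classical
  refine ⟨fun y H lo hy => inv_bad d y H lo hy, fun L y lam hlam => fail_subset d L y lam hlam, ?_⟩
  obtain ⟨-, δ, C, hδ, -, hC, hF⟩ := hD
  refine ⟨δ, C, hδ, hC, ?_⟩
  intro a l y H ha hy hya hH
  have hHpos : 0 < H := lt_of_lt_of_le (by positivity) hH
  have hyd : 0 < y ^ δ := Real.rpow_pos_of_pos (by linarith) δ
  have key : ∀ n : ℕ, n ≤ l → Alog (Bad d y H) a n ≤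
      n * (2 * 2 ^ (a + l) / H + C * ((a : ℝ) + l) / y ^ δ) := by
    intro n
    induction n with
    | zero => intro _; simp [Alog, blk]
    | succ n ih =>
      intro hn
      have ih' := ih (by omega)
      have hsplit : Alog (Bad d y H) a (n + 1) = Alog (Bad d y H) a n +
          ∑ N ∈ (Ico (2 ^ (a + n)) (2 ^ (a + n + 1))).filter (fun N => N ∈ Bad d y H),
            (1 : ℝ) / N := by
        unfold Alog blk
        rw [← sum_union]
        · apply sum_congr _ (fun _ _ => rfl)
          rw [← filter_union]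
          congr 1
          rw [show a + (n + 1) = a + n + 1 by ring]
          exact (Ico_union_Ico_eq_Ico (Nat.pow_le_pow_right (by norm_num) (by omega))
            (Nat.pow_le_pow_right (by norm_num) (by omega))).symm
        · apply disjoint_filter_filter
          exact Ico_disjoint_Ico_consecutive _ _ _
      have hb := block_sum d (a + n) y H δ C
        (le_trans (pow_le_pow_right₀ (by norm_num) (by omega)) hH)
        (fun lam hlam => by
          have := hF (a + n) y lam (by omega) hy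
            (hya.trans (pow_le_pow_right₀ (by norm_num) (by omega))) hlam
          exact_mod_cast this)
      have h1 : 2 * (2 : ℝ) ^ (a + n + 1) / H ≤ 2 * 2 ^ (a + l) / H := by
        apply div_le_div_of_nonneg_right _ hHpos.le
        exact mul_le_mul_of_nonneg_left (pow_le_pow_right₀ (by norm_num) (by omega)) (by norm_num)
      have h2 : C * ((a + n : ℕ) : ℝ) / y ^ δ ≤ C * ((a : ℝ) + l) / y ^ δ := by
        apply div_le_div_of_nonneg_right _ hyd.le
        apply mul_le_mul_of_nonneg_left _ hC.le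
        push_cast
        have : (n : ℝ) ≤ l := by exact_mod_cast (by omega : n ≤ l)
        linarith
      rw [hsplit]
      push_cast
      nlinarith
  exact key l le_rfl

end Pool.Agent.Lib.MP_0a5adf_nt.TP.H16
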